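import Pool.Agent.L0h5.TT.Stm

/-!
# Project TT: the boxes
-/

set_option autoImplicit false

namespace Pool.Agent.L0h88.TT

open Finset Pool.Agent.W262.RK Pool.Agent.L0h5.TF Pool.Agent.L0h5.AG Pool.Agent.L0h94.FT
  Pool.Agent.L0h5.TT Filter
open Pool.Agent.W307.RT (S1 S2 Gd fv)

/-- the parameters, first family -/
def w1 (d : ℕ × ℕ) : ℕ × ℕ × ℕ :=
  (Nat.gcd d.1 d.2, d.1 / Nat.gcd d.1 d.2, (d.2 - d.1) / Nat.gcd d.1 d.2)

/-- the parameters, second family -/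
def w2 (d : ℕ × ℕ) : ℕ × ℕ × ℕ :=
  (Nat.gcd d.2 d.1, d.2 / Nat.gcd d.2 d.1, (d.1 - d.2) / Nat.gcd d.2 d.1)

/-- the pair, first family -/
def v1 (ω : ℕ × ℕ × ℕ) : ℕ × ℕ := (ω.1 * ω.2.1, ω.1 * (ω.2.1 + ω.2.2))

/-- the pair, second family -/
def v2 (ω : ℕ × ℕ × ℕ) : ℕ × ℕ := (ω.1 * (ω.2.1 + ω.2.2), ω.1 * ω.2.1)

/-- the size of the parameters -/
def Xf (n : ℕ) : ℕ := Nat.sqrt n + 1

lemma n_le (n : ℕ) : n ≤ Xf n ^ 2 := by
  unfold Xf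
  rw [sq]
  exact (Nat.lt_succ_sqrt n).le

lemma w1_spec {n : ℕ} {d : ℕ × ℕ} (hd : d ∈ Icc 1 n ×ˢ Icc 1 n) (hg : Nat.gcd d.1 d.2 ≤ Xf n)
    (hlt : d.1 < d.2) : w1 d ∈ TX aa b1 (Xf n) ∧ v1 (w1 d) = d := by
  obtain ⟨a, b⟩ := d
  rw [mem_product, mem_Icc, mem_Icc] at hd
  obtain ⟨⟨k1, k2⟩, k3, k4⟩ := hd
  simp only at k1 k2 k3 k4 hg hlt
  obtain ⟨l1, l2, l3, l4, e1, e2⟩ := params k1 hlt k4 (n_le n) hg
  refine ⟨?_, ?_⟩
  · unfold w1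
    rw [mem_TX]
    exact ⟨l1, l2, l3, l4, F3a _ _ l2.1 l3.1⟩
  · unfold v1 w1
    simp only
    rw [e1, e2]

lemma w2_spec {n : ℕ} {d : ℕ × ℕ} (hd : d ∈ Icc 1 n ×ˢ Icc 1 n) (hg : Nat.gcd d.1 d.2 ≤ Xf n)
    (hlt : d.2 < d.1) : w2 d ∈ TX aa b2 (Xf n) ∧ v2 (w2 d) = d := by
  obtain ⟨a, b⟩ := d
  rw [mem_product, mem_Icc, mem_Icc] at hd
  obtain ⟨⟨k1, k2⟩, k3, k4⟩ := hd
  simp only at k1 k2 k3 k4 hg hlt
  rw [Nat.gcd_comm] at hg
  obtain ⟨l1, l2, l3, l4, e1, e2⟩ := params k3 hlt k2 (n_le n) hg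
  refine ⟨?_, ?_⟩
  · unfold w2
    rw [mem_TX]
    exact ⟨l1, l2, l3, l4, F3b _ _ l2.1 l3.1⟩
  · unfold v2 w2
    simp only
    rw [e1, e2]

lemma rk_v1 (ω : ℕ × ℕ × ℕ) : rk2 (v1 ω) = rkw aa b1 ω := by
  unfold rk2 rkw
  have h : EAB ((v1 ω).1 : ℤ) (((v1 ω).1 : ℤ) + (v1 ω).2) =
      EAB (ω.1 * fv aa b1 ω.2.1 ω.2.2 0) (ω.1 * fv aa b1 ω.2.1 ω.2.2 1) := by
    rw [fa0, fa1]
    unfold v1
    congr 1
    all_goals
      push_cast
      ring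
  rw [h]

lemma rk_v2 (ω : ℕ × ℕ × ℕ) : rk2 (v2 ω) = rkw aa b2 ω := by
  unfold rk2 rkw
  have h : EAB ((v2 ω).1 : ℤ) (((v2 ω).1 : ℤ) + (v2 ω).2) =
      EAB (ω.1 * fv aa b2 ω.2.1 ω.2.2 0) (ω.1 * fv aa b2 ω.2.1 ω.2.2 1) := by
    rw [fb0, fb1]
    unfold v2
    congr 1
    all_goals
      push_cast
      ring
  rw [h]

lemma rk2_nonneg (d : ℕ × ℕ) : 0 ≤ rk2 d := by unfold rk2; positivity

open Classical in
/-- the typical pairs, first family -/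
noncomputable def B1 (n : ℕ) : Finset (ℕ × ℕ) :=
  (Icc 1 n ×ˢ Icc 1 n).filter (fun d : ℕ × ℕ => (Nat.gcd d.1 d.2 ≤ Xf n ∧ d.1 < d.2) ∧
    Typ aa b1 (Xf n) (w1 d))

open Classical in
/-- the typical pairs, second family -/
noncomputable def B2 (n : ℕ) : Finset (ℕ × ℕ) :=
  (Icc 1 n ×ˢ Icc 1 n).filter (fun d : ℕ × ℕ => (Nat.gcd d.1 d.2 ≤ Xf n ∧ d.2 < d.1) ∧
    Typ aa b2 (Xf n) (w2 d))

open Classical in
/-- the pairs of the first family that are not typical -/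
noncomputable def D1 (n : ℕ) : Finset (ℕ × ℕ) :=
  (Icc 1 n ×ˢ Icc 1 n).filter (fun d : ℕ × ℕ => (Nat.gcd d.1 d.2 ≤ Xf n ∧ d.1 < d.2) ∧
    ¬ Typ aa b1 (Xf n) (w1 d))

open Classical in
/-- the pairs of the second family that are not typical -/
noncomputable def D2 (n : ℕ) : Finset (ℕ × ℕ) :=
  (Icc 1 n ×ˢ Icc 1 n).filter (fun d : ℕ × ℕ => (Nat.gcd d.1 d.2 ≤ Xf n ∧ d.2 < d.1) ∧
    ¬ Typ aa b2 (Xf n) (w2 d))

lemma X4_le {n : ℕ} (hn : 1 ≤ n) : ((Xf n : ℕ) : ℝ) ^ 4 ≤ 16 * (n : ℝ) ^ 2 := by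
  have hn1 : (1 : ℝ) ≤ n := by exact_mod_cast hn
  have hsq1 : 1 ≤ Real.sqrt n := Real.one_le_sqrt.2 hn1
  have hXle : ((Xf n : ℕ) : ℝ) ≤ 2 * Real.sqrt n := by
    have h4 : ((Nat.sqrt n : ℕ) : ℝ) ≤ Real.sqrt n := Real.nat_sqrt_le_real_sqrt
    unfold Xf
    push_cast
    linarith
  calc ((Xf n : ℕ) : ℝ) ^ 4 ≤ (2 * Real.sqrt n) ^ 4 := pow_le_pow_left₀ (Nat.cast_nonneg _) hXle 4
    _ = 16 * (Real.sqrt n ^ 2) ^ 2 := by ring
    _ = _ := by rw [Real.sq_sqrt (by linarith)]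

lemma Xf_tendsto : Tendsto Xf atTop atTop := by
  refine tendsto_atTop.2 fun b => (eventually_ge_atTop (b ^ 2)).mono fun n hn => ?_
  unfold Xf
  have := Nat.le_sqrt'.2 hn
  omega

open Classical in
lemma D1_card (n : ℕ) :
    (D1 n).card ≤ ((TX aa b1 (Xf n)).filter (fun ω => ¬ Typ aa b1 (Xf n) ω)).card := by
  apply card_le_card_of_injOn w1
  · intro d hd
    unfold D1 at hd
    rw [mem_coe, mem_filter] at hd
    rw [mem_coe, mem_filter]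
    exact ⟨(w1_spec hd.1 hd.2.1.1 hd.2.1.2).1, hd.2.2⟩
  · intro d hd d' hd' h
    unfold D1 at hd hd'
    rw [mem_coe, mem_filter] at hd hd'
    rw [← (w1_spec hd.1 hd.2.1.1 hd.2.1.2).2, ← (w1_spec hd'.1 hd'.2.1.1 hd'.2.1.2).2, h]

open Classical in
lemma D2_card (n : ℕ) :
    (D2 n).card ≤ ((TX aa b2 (Xf n)).filter (fun ω => ¬ Typ aa b2 (Xf n) ω)).card := by
  apply card_le_card_of_injOn w2
  · intro d hd
    unfold D2 at hd
    rw [mem_coe, mem_filter] at hd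
    rw [mem_coe, mem_filter]
    exact ⟨(w2_spec hd.1 hd.2.1.1 hd.2.1.2).1, hd.2.2⟩
  · intro d hd d' hd' h
    unfold D2 at hd hd'
    rw [mem_coe, mem_filter] at hd hd'
    rw [← (w2_spec hd.1 hd.2.1.1 hd.2.1.2).2, ← (w2_spec hd'.1 hd'.2.1.1 hd'.2.1.2).2, h]

open Classical in
/-- the exceptions -/
lemma exc (n : ℕ) : (Icc 1 n ×ˢ Icc 1 n) \ (B1 n ∪ B2 n) ⊆
    (((Icc 1 n ×ˢ Icc 1 n).filter (fun d : ℕ × ℕ => Xf n < Nat.gcd d.1 d.2)) ∪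
      ((Icc 1 n ×ˢ Icc 1 n).filter (fun d : ℕ × ℕ => d.1 = d.2))) ∪ (D1 n ∪ D2 n) := by
  intro d hd
  rw [Finset.mem_sdiff, mem_union, not_or] at hd
  obtain ⟨h1, h2, h3⟩ := hd
  unfold B1 at h2
  unfold B2 at h3
  rw [mem_filter] at h2 h3
  rw [mem_union, mem_union, mem_union, mem_filter, mem_filter]
  rcases Nat.lt_or_ge (Xf n) (Nat.gcd d.1 d.2) with h | h
  · exact Or.inl (Or.inl ⟨h1, h⟩)
  · rcases lt_trichotomy d.1 d.2 with h' | h' | h'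
    · refine Or.inr (Or.inl ?_)
      unfold D1
      rw [mem_filter]
      exact ⟨h1, ⟨h, h'⟩, fun ht => h2 ⟨h1, ⟨h, h'⟩, ht⟩⟩
    · exact Or.inl (Or.inr ⟨h1, h'⟩)
    · refine Or.inr (Or.inr ?_)
      unfold D2
      rw [mem_filter]
      exact ⟨h1, ⟨h, h'⟩, fun ht => h3 ⟨h1, ⟨h, h'⟩, ht⟩⟩

lemma diag_card (n : ℕ) :
    ((Icc 1 n ×ˢ Icc 1 n).filter (fun d : ℕ × ℕ => d.1 = d.2)).card ≤ n := by
  have k3 : ((Icc 1 n ×ˢ Icc 1 n).filter (fun d : ℕ × ℕ => d.1 = d.2)).card ≤ (Icc 1 n).card := by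
    apply card_le_card_of_injOn Prod.fst
    · intro d hd
      have hd' := (mem_filter.1 (mem_coe.1 hd)).1
      rw [mem_product] at hd'
      exact hd'.1
    · intro d hd d' hd' h
      have e1 := (mem_filter.1 (mem_coe.1 hd)).2
      have e2 := (mem_filter.1 (mem_coe.1 hd')).2
      exact Prod.ext h (by rw [← e1, ← e2, h])
  rwa [Nat.card_Icc, Nat.add_sub_cancel] at k3

/-- **L** -/
theorem boxF (hC : S_CORE) (hT : S_TYP) : S_BOX := by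
  classical
  refine ⟨fun n => B1 n ∪ B2 n, fun n => ?_, ?_, fun k => ?_⟩
  · unfold B1 B2
    exact union_subset (filter_subset _ _) (filter_subset _ _)
  · obtain ⟨C1, X1, -, h1⟩ := hT aa b1 aa_ne
    obtain ⟨C2, X2, -, h2⟩ := hT aa b2 aa_ne
    have tX : Tendsto (fun n => ((Xf n : ℕ) : ℝ)) atTop atTop :=
      tendsto_natCast_atTop_atTop.comp Xf_tendsto
    have tL : Tendsto (fun n => LL (Xf n)) atTop atTop :=
      Real.tendsto_log_atTop.comp (Real.tendsto_log_atTop.comp tX)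
    have tR : Tendsto (fun n => (LL (Xf n)) ^ (1 / 2 : ℝ)) atTop atTop :=
      (tendsto_rpow_atTop (by norm_num : (0 : ℝ) < 1 / 2)).comp tL
    have t1 : Tendsto (fun n => (1 : ℝ) / ((Xf n : ℕ) : ℝ)) atTop (nhds 0) :=
      tX.const_div_atTop 1
    have t2 : Tendsto (fun n : ℕ => (1 : ℝ) / (n : ℝ)) atTop (nhds 0) :=
      tendsto_natCast_atTop_atTop.const_div_atTop 1
    have t3 : Tendsto (fun n => ((|C1| + |C2|) * 16) / (LL (Xf n)) ^ (1 / 2 : ℝ)) atTop (nhds 0) :=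
      tR.const_div_atTop _
    have t4 := (t1.add t2).add t3
    rw [add_zero, add_zero] at t4
    refine squeeze_zero' (Eventually.of_forall fun n => by positivity) ?_ t4
    filter_upwards [Xf_tendsto.eventually_ge_atTop X1, Xf_tendsto.eventually_ge_atTop X2,
      tR.eventually_gt_atTop 0, eventually_ge_atTop 1] with n hn1 hn2 hR hn
    have hnr : (0 : ℝ) < n := by exact_mod_cast hn
    rw [div_le_iff₀ (by positivity)]
    have c1 := card_le_card (exc n)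
    have c2 := c1.trans ((card_union_le _ _).trans (add_le_add (card_union_le _ _)
      (card_union_le _ _)))
    have c3 : (((Icc 1 n ×ˢ Icc 1 n) \ (B1 n ∪ B2 n)).card : ℝ) ≤
        ((((Icc 1 n ×ˢ Icc 1 n).filter (fun d : ℕ × ℕ => Xf n < Nat.gcd d.1 d.2)).card : ℝ) +
        (((Icc 1 n ×ˢ Icc 1 n).filter (fun d : ℕ × ℕ => d.1 = d.2)).card : ℝ)) +
        (((D1 n).card : ℝ) + ((D2 n).card : ℝ)) := by exact_mod_cast c2
    have b1' : (((Icc 1 n ×ˢ Icc 1 n).filter (fun d : ℕ × ℕ => Xf n < Nat.gcd d.1 d.2)).card : ℝ) ≤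
        (n : ℝ) ^ 2 / (Xf n : ℕ) := big_gcd (by unfold Xf; omega)
    have b2' : (((Icc 1 n ×ˢ Icc 1 n).filter (fun d : ℕ × ℕ => d.1 = d.2)).card : ℝ) ≤ n := by
      exact_mod_cast diag_card n
    have X4 := X4_le hn
    have b3' : ((D1 n).card : ℝ) ≤ |C1| * (16 * (n : ℝ) ^ 2) / (LL (Xf n)) ^ (1 / 2 : ℝ) := by
      have k1 : ((D1 n).card : ℝ) ≤
          (((TX aa b1 (Xf n)).filter (fun ω => ¬ Typ aa b1 (Xf n) ω)).card : ℝ) := by
        exact_mod_cast D1_card n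
      refine k1.trans ((h1 (Xf n) hn1).trans ?_)
      apply div_le_div_of_nonneg_right _ hR.le
      exact (mul_le_mul_of_nonneg_right (le_abs_self _) (by positivity)).trans
        (mul_le_mul_of_nonneg_left X4 (abs_nonneg _))
    have b4' : ((D2 n).card : ℝ) ≤ |C2| * (16 * (n : ℝ) ^ 2) / (LL (Xf n)) ^ (1 / 2 : ℝ) := by
      have k1 : ((D2 n).card : ℝ) ≤
          (((TX aa b2 (Xf n)).filter (fun ω => ¬ Typ aa b2 (Xf n) ω)).card : ℝ) := by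
        exact_mod_cast D2_card n
      refine k1.trans ((h2 (Xf n) hn2).trans ?_)
      apply div_le_div_of_nonneg_right _ hR.le
      exact (mul_le_mul_of_nonneg_right (le_abs_self _) (by positivity)).trans
        (mul_le_mul_of_nonneg_left X4 (abs_nonneg _))
    have e1 : (1 / ((Xf n : ℕ) : ℝ) + 1 / (n : ℝ) +
        (|C1| + |C2|) * 16 / (LL (Xf n)) ^ (1 / 2 : ℝ)) * (n : ℝ) ^ 2 =
        (n : ℝ) ^ 2 / (Xf n : ℕ) + n + (|C1| * (16 * (n : ℝ) ^ 2) / (LL (Xf n)) ^ (1 / 2 : ℝ) +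
          |C2| * (16 * (n : ℝ) ^ 2) / (LL (Xf n)) ^ (1 / 2 : ℝ)) := by
      have hX0 : ((Xf n : ℕ) : ℝ) ≠ 0 := by
        unfold Xf
        positivity
      field_simp
    rw [e1]
    linarith
  · obtain ⟨C1, h1⟩ := hC aa b1 aa_ne res1 (fun x t => by rw [fa0, fa1, fa2]; ring) k
    obtain ⟨C2, h2⟩ := hC aa b2 aa_ne res2 (fun x t => by rw [fb0, fb1, fb2]; ring) k
    refine ⟨|C1| * 16 + |C2| * 16, by positivity, fun n hn => ?_⟩
    have X4 := X4_le hn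
    have hX1 : 1 ≤ Xf n := by unfold Xf; omega
    have hnn : ∀ d : ℕ × ℕ, 0 ≤ (rk2 d) ^ k := fun d => pow_nonneg (rk2_nonneg d) k
    have s1 : ∑ d ∈ B1 n, (rk2 d) ^ k ≤ |C1| * 16 * (n : ℝ) ^ 2 := by
      refine (sum_inj_le (B1 n) ((TX aa b1 (Xf n)).filter (fun ω => Typ aa b1 (Xf n) ω)) w1 v1
        ?_ ?_ (fun d => (rk2 d) ^ k) hnn).trans ?_
      · intro d hd
        unfold B1 at hd
        rw [mem_filter] at hd
        exact (w1_spec hd.1 hd.2.1.1 hd.2.1.2).2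
      · intro d hd
        unfold B1 at hd
        rw [mem_filter] at hd
        rw [mem_filter]
        exact ⟨(w1_spec hd.1 hd.2.1.1 hd.2.1.2).1, hd.2.2⟩
      · rw [sum_congr rfl (fun ω _ => by rw [rk_v1])]
        refine (h1 (Xf n) hX1).trans ?_
        calc C1 * ((Xf n : ℕ) : ℝ) ^ 4 ≤ |C1| * ((Xf n : ℕ) : ℝ) ^ 4 :=
              mul_le_mul_of_nonneg_right (le_abs_self _) (by positivity)
          _ ≤ |C1| * (16 * (n : ℝ) ^ 2) := mul_le_mul_of_nonneg_left X4 (abs_nonneg _)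
          _ = _ := by ring
    have s2 : ∑ d ∈ B2 n, (rk2 d) ^ k ≤ |C2| * 16 * (n : ℝ) ^ 2 := by
      refine (sum_inj_le (B2 n) ((TX aa b2 (Xf n)).filter (fun ω => Typ aa b2 (Xf n) ω)) w2 v2
        ?_ ?_ (fun d => (rk2 d) ^ k) hnn).trans ?_
      · intro d hd
        unfold B2 at hd
        rw [mem_filter] at hd
        exact (w2_spec hd.1 hd.2.1.1 hd.2.1.2).2
      · intro d hd
        unfold B2 at hd
        rw [mem_filter] at hd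
        rw [mem_filter]
        exact ⟨(w2_spec hd.1 hd.2.1.1 hd.2.1.2).1, hd.2.2⟩
      · rw [sum_congr rfl (fun ω _ => by rw [rk_v2])]
        refine (h2 (Xf n) hX1).trans ?_
        calc C2 * ((Xf n : ℕ) : ℝ) ^ 4 ≤ |C2| * ((Xf n : ℕ) : ℝ) ^ 4 :=
              mul_le_mul_of_nonneg_right (le_abs_self _) (by positivity)
          _ ≤ |C2| * (16 * (n : ℝ) ^ 2) := mul_le_mul_of_nonneg_left X4 (abs_nonneg _)
          _ = _ := by ring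
    calc ∑ d ∈ B1 n ∪ B2 n, (rk2 d) ^ k ≤ ∑ d ∈ B1 n, (rk2 d) ^ k + ∑ d ∈ B2 n, (rk2 d) ^ k := by
          rw [← sum_union_inter]
          exact le_add_of_nonneg_right (sum_nonneg fun d _ => hnn d)
      _ ≤ |C1| * 16 * (n : ℝ) ^ 2 + |C2| * 16 * (n : ℝ) ^ 2 := add_le_add s1 s2
      _ = _ := by ring

end Pool.Agent.L0h88.TT
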