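import Pool.Agent.L0h5.TT.Stm

/-!
# Project TT: the curves of given height
-/

set_option autoImplicit false

namespace Pool.Agent.L0h88.TT

open Finset Pool.Agent.W262.RK Pool.Agent.L0h5.TF Pool.Agent.L0h5.AG Pool.Agent.L0h94.FT
  Pool.Agent.L0h5.TT Filter
open Pool.Agent.W307.RT (S1 S2 Gd fv Cv Sh)

/-- the size of the parameters of the curves of height `H` -/
noncomputable def Tf (H : ℕ) : ℕ := Nat.findGreatest (fun t => t ^ 6 ≤ 7 * H) (7 * H)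

lemma le_Tf {H x : ℕ} (hx : x ^ 6 ≤ 7 * H) : x ≤ Tf H := by
  apply Nat.le_findGreatest
  · exact (Nat.le_self_pow (by omega) x).trans hx
  · exact hx

lemma Tf_pow (H : ℕ) : Tf H ^ 6 ≤ 7 * H := by
  have : (fun t => t ^ 6 ≤ 7 * H) (Tf H) :=
    Nat.findGreatest_spec (P := fun t => t ^ 6 ≤ 7 * H) (Nat.zero_le _)
      (by rw [zero_pow (by omega)]; exact Nat.zero_le _)
  exact this

lemma Tf_tendsto : Tendsto Tf atTop atTop := by
  refine tendsto_atTop.2 fun b => (eventually_ge_atTop (b ^ 6)).mono fun n hn => ?_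
  exact le_Tf (by omega)

lemma Fr_box {H : ℕ} {x : ℤ × ℤ} (hx : x ∈ Cv 2 H) :
    Fr x ∈ Icc 1 (Tf H) ×ˢ Icc 1 (Tf H) := by
  have hx' := hx
  unfold Cv at hx'
  simp only [mem_filter] at hx'
  obtain ⟨h1, h2⟩ := rl_size (Fr_rl hx) hx'.2.2.1
  obtain ⟨e, a1, a2, -⟩ := Fr_rl hx
  rw [mem_product, mem_Icc, mem_Icc]
  exact ⟨⟨a1, le_Tf h1⟩, ⟨a2, le_Tf h2⟩⟩

lemma Fr_inj (H : ℕ) : Set.InjOn Fr (Cv 2 H : Set (ℤ × ℤ)) := by
  intro x hx x' hx' h
  have h1 := Fr_rl (mem_coe.1 hx)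
  have h2 := Fr_rl (mem_coe.1 hx')
  rw [← h] at h2
  exact rl_inj h1 h2

lemma rl_rank2 {c : ℤ × ℤ} {d : ℕ × ℕ} (h : Rl c d) :
    (2 : ℝ) ^ Module.finrank ℤ (Sh c.1 c.2).toAffine.Point = rk2 d := by
  have h1 := rl_rank h
  unfold rk4 rkE at h1
  rw [four_pow, four_pow] at h1
  unfold rk2
  exact (pow_left_inj₀ (by positivity) (by positivity) two_ne_zero).1 h1

/-- the family is large -/
lemma Tf_sq : ∃ K : ℝ, 0 < K ∧ ∀ H : ℕ, (Cv 2 H).card ≠ 0 →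
    ((Tf H : ℕ) : ℝ) ^ 2 ≤ K * (Cv 2 H).card := by
  obtain ⟨c, C1, T0, hc, hlow⟩ := low2
  set D := 7 * C1 + 1 with hD
  have hD1 : 1 ≤ D := by omega
  refine ⟨((D * (T0 + 1) : ℕ) : ℝ) ^ 2 + (2 * (D : ℝ)) ^ 2 / c, by positivity, fun H hH => ?_⟩
  have hK1 : (1 : ℝ) ≤ (Cv 2 H).card := by exact_mod_cast Nat.one_le_iff_ne_zero.2 hH
  have hq0 : 0 ≤ (2 * (D : ℝ)) ^ 2 / c := by positivity
  have hr0 : 0 ≤ ((D * (T0 + 1) : ℕ) : ℝ) ^ 2 := by positivity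
  set T := Tf H with hT
  rcases Nat.lt_or_ge T (D * (T0 + 1)) with hlt | hge
  · have h1 : ((T : ℕ) : ℝ) ≤ ((D * (T0 + 1) : ℕ) : ℝ) := by exact_mod_cast hlt.le
    calc ((T : ℕ) : ℝ) ^ 2 ≤ ((D * (T0 + 1) : ℕ) : ℝ) ^ 2 :=
          pow_le_pow_left₀ (Nat.cast_nonneg _) h1 2
      _ ≤ ((D * (T0 + 1) : ℕ) : ℝ) ^ 2 * (Cv 2 H).card := le_mul_of_one_le_right hr0 hK1
      _ ≤ _ := by
        apply mul_le_mul_of_nonneg_right _ (by linarith)
        linarith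
  · set T' := T / D with hT'
    have hT'0 : T0 + 1 ≤ T' := by
      rw [hT', Nat.le_div_iff_mul_le hD1, mul_comm]
      exact hge
    have h2 : T' * D ≤ T := Nat.div_mul_le_self T D
    have h3 : C1 * T' ^ 6 ≤ H := by
      have a1 : (T' * D) ^ 6 ≤ 7 * H := (Nat.pow_le_pow_left h2 6).trans (Tf_pow H)
      rw [mul_pow] at a1
      have a2 : D ≤ D ^ 6 := Nat.le_self_pow (by omega) D
      have a3 : T' ^ 6 * (7 * C1) ≤ 7 * H :=
        (Nat.mul_le_mul_left _ (by omega : 7 * C1 ≤ D ^ 6)).trans a1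
      have a4 : 7 * (C1 * T' ^ 6) ≤ 7 * H := by
        calc 7 * (C1 * T' ^ 6) = T' ^ 6 * (7 * C1) := by ring
          _ ≤ _ := a3
      exact Nat.le_of_mul_le_mul_left a4 (by omega)
    have h4 := hlow T' H (by omega) h3
    have h5 : T ≤ 2 * D * T' := by
      have a1 : T < D * (T' + 1) := by
        rw [mul_comm]
        exact Nat.lt_mul_of_div_lt (by rw [← hT']; omega) hD1
      have a2 : D * (T' + 1) ≤ 2 * D * T' := by nlinarith
      omega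
    have h6 : ((T : ℕ) : ℝ) ≤ 2 * D * T' := by exact_mod_cast h5
    calc ((T : ℕ) : ℝ) ^ 2 ≤ (2 * D * T') ^ 2 := pow_le_pow_left₀ (Nat.cast_nonneg T) h6 2
      _ = (2 * (D : ℝ)) ^ 2 / c * (c * (T' : ℝ) ^ 2) := by
        field_simp
      _ ≤ (2 * (D : ℝ)) ^ 2 / c * (Cv 2 H).card := mul_le_mul_of_nonneg_left h4 hq0
      _ ≤ _ := by
        apply mul_le_mul_of_nonneg_right _ (by linarith)
        linarith

/-- **M** -/
theorem famF (hB : S_BOX) : S_FAM := by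
  classical
  obtain ⟨Ty0, hsub, hlim, hsum⟩ := hB
  obtain ⟨K, hK, hKH⟩ := Tf_sq
  refine ⟨fun H => (Cv 2 H).filter (fun c => Fr c ∈ Ty0 (Tf H)), fun H => filter_subset _ _, ?_,
    fun k => ?_⟩
  · have hlim' := (hlim.comp Tf_tendsto).const_mul K
    rw [mul_zero] at hlim'
    refine squeeze_zero' (Eventually.of_forall fun H => by positivity) ?_ hlim'
    filter_upwards [Tf_tendsto.eventually_ge_atTop 1] with H hT1
    have hT0 : (0 : ℝ) < ((Tf H : ℕ) : ℝ) := by exact_mod_cast hT1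
    by_cases h0 : (Cv 2 H).card = 0
    · rw [h0, Nat.cast_zero, div_zero]
      simp only [Function.comp]
      positivity
    have hc : (0 : ℝ) < (Cv 2 H).card := by exact_mod_cast Nat.pos_of_ne_zero h0
    have h1 : (Cv 2 H \ (Cv 2 H).filter (fun c => Fr c ∈ Ty0 (Tf H))).card ≤
        ((Icc 1 (Tf H) ×ˢ Icc 1 (Tf H)) \ Ty0 (Tf H)).card := by
      apply card_le_card_of_injOn Fr
      · intro x hx
        rw [mem_coe, Finset.mem_sdiff, mem_filter] at hx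
        rw [mem_coe, Finset.mem_sdiff]
        exact ⟨Fr_box hx.1, fun h => hx.2 ⟨hx.1, h⟩⟩
      · intro x hx x' hx' h
        rw [mem_coe, Finset.mem_sdiff] at hx hx'
        exact Fr_inj H hx.1 hx'.1 h
    have h2 : ((Cv 2 H \ (Cv 2 H).filter (fun c => Fr c ∈ Ty0 (Tf H))).card : ℝ) ≤
        (((Icc 1 (Tf H) ×ˢ Icc 1 (Tf H)) \ Ty0 (Tf H)).card : ℝ) := by exact_mod_cast h1
    simp only [Function.comp]
    set N := (((Icc 1 (Tf H) ×ˢ Icc 1 (Tf H)) \ Ty0 (Tf H)).card : ℝ) with hN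
    have hN0 : 0 ≤ N := by rw [hN]; positivity
    rw [div_le_iff₀ hc]
    have h3 : N ≤ K * (N / ((Tf H : ℕ) : ℝ) ^ 2) * (Cv 2 H).card := by
      have h4 := hKH H h0
      calc N = N / ((Tf H : ℕ) : ℝ) ^ 2 * ((Tf H : ℕ) : ℝ) ^ 2 := by field_simp
        _ ≤ N / ((Tf H : ℕ) : ℝ) ^ 2 * (K * (Cv 2 H).card) :=
          mul_le_mul_of_nonneg_left h4 (by positivity)
        _ = _ := by ring
    exact h2.trans h3
  · obtain ⟨C, hC, hCn⟩ := hsum k
    refine ⟨C * K, by positivity, fun H => ?_⟩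
    by_cases h0 : (Cv 2 H).card = 0
    · rw [card_eq_zero] at h0
      simp [h0]
    have hT1 : 1 ≤ Tf H := by
      obtain ⟨x, hx⟩ := card_pos.1 (Nat.pos_of_ne_zero h0)
      have := Fr_box hx
      rw [mem_product, mem_Icc, mem_Icc] at this
      omega
    have h1 : ∑ c ∈ (Cv 2 H).filter (fun c => Fr c ∈ Ty0 (Tf H)),
        ((2 : ℝ) ^ Module.finrank ℤ (Sh c.1 c.2).toAffine.Point) ^ k ≤
        ∑ d ∈ Ty0 (Tf H), (rk2 d) ^ k := by
      have hinj : Set.InjOn Fr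
          ((Cv 2 H).filter (fun c => Fr c ∈ Ty0 (Tf H)) : Set (ℤ × ℤ)) := by
        intro x hx x' hx' h
        exact Fr_inj H (mem_filter.1 (mem_coe.1 hx)).1 (mem_filter.1 (mem_coe.1 hx')).1 h
      have h3 : ∑ c ∈ (Cv 2 H).filter (fun c => Fr c ∈ Ty0 (Tf H)),
          ((2 : ℝ) ^ Module.finrank ℤ (Sh c.1 c.2).toAffine.Point) ^ k =
          ∑ t ∈ ((Cv 2 H).filter (fun c => Fr c ∈ Ty0 (Tf H))).image Fr, (rk2 t) ^ k := by
        rw [sum_image hinj]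
        exact sum_congr rfl fun x hx' => by rw [rl_rank2 (Fr_rl (mem_filter.1 hx').1)]
      rw [h3]
      apply sum_le_sum_of_subset_of_nonneg
      · intro t ht
        obtain ⟨x, hx', rfl⟩ := mem_image.1 ht
        exact (mem_filter.1 hx').2
      · intro t _ _
        unfold rk2
        positivity
    calc _ ≤ ∑ d ∈ Ty0 (Tf H), (rk2 d) ^ k := h1
      _ ≤ C * ((Tf H : ℕ) : ℝ) ^ 2 := hCn (Tf H) hT1
      _ ≤ C * (K * (Cv 2 H).card) := mul_le_mul_of_nonneg_left (hKH H h0) hC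
      _ = _ := by ring

end Pool.Agent.L0h88.TT
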