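import Pool.Agent.L0h5.TT.Stm

/-!
# Project TT: the decomposition of the small part by forms
-/

set_option autoImplicit false

namespace Pool.Agent.L0h88.TT

open Finset Pool.Agent.W262.RK Pool.Agent.L0h5.TF Pool.Agent.L0h5.AG Pool.Agent.L0h94.FT
  Pool.Agent.L0h5.TT
open Pool.Agent.W307.RT (S1 S2 Gd fv)

/-- **I1** -/
theorem tcF : S_TC := by
  classical
  intro α β z y X hb ω hω
  obtain ⟨g, x, t⟩ := ω
  rw [mem_TX] at hω
  obtain ⟨-, -, -, hc, h0⟩ := hω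
  set A : Fin 3 → Finset ℕ := fun c => (PS z y).filter (fun p : ℕ => ¬ p ∣ g ∧
    (p : ℤ) ∣ fv α β x t c ∧ ¬ (p : ℤ) ^ 2 ∣ F3 α β x t) with hA
  have hdis : ∀ c l, c ≠ l → Disjoint (A c) (A l) := by
    intro c l hcl
    rw [Finset.disjoint_left]
    intro p h1 h2
    rw [hA, mem_filter] at h1 h2
    exact ndo hb (mem_PS.1 h1.1).2 (mem_PS.1 h1.1).1.1 hc hcl h1.2.2.1 h2.2.2.1
  have hpr : ∀ c, ∀ p ∈ A c, p.Prime := by
    intro c p hp
    rw [hA, mem_filter] at hp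
    exact (mem_PS.1 hp.1).2
  have htc : ∀ c, tc α β z y (g, x, t) c = ∏ p ∈ A c, p := by
    intro c
    unfold tc
    refine prod_congr ?_ fun _ _ => rfl
    rw [hA]
  refine ⟨?_, ?_⟩
  · rw [mem_Tup']
    refine ⟨fun c => ?_, fun c l hcl => ?_⟩
    · rw [htc]
      exact prod_dvd_prod_of_subset _ _ _ (filter_subset _ _)
    · rw [htc, htc]
      refine Nat.Coprime.prod_left fun p hp => Nat.Coprime.prod_right fun q hq => ?_
      rw [Nat.coprime_primes (hpr c p hp) (hpr l q hq)]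
      rintro rfl
      exact Finset.disjoint_left.1 (hdis c l hcl) hp hq
  · have h1 : ∏ c, tc α β z y (g, x, t) c = ∏ c, ∏ p ∈ A c, p := prod_congr rfl fun c _ => htc c
    rw [h1, ← prod_biUnion (fun c _ l _ hcl => hdis c l hcl)]
    unfold S1
    refine prod_congr ?_ fun _ _ => rfl
    ext p
    rw [mem_biUnion, mem_filter]
    constructor
    · rintro ⟨c, -, hp⟩
      rw [hA, mem_filter] at hp
      have hpp := (mem_PS.1 hp.1).2
      refine ⟨hp.1, ?_, ?_⟩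
      · rw [dvd_fR1 hpp h0]
        exact ⟨(dvd_F3 hpp).2 ⟨c, hp.2.2.1⟩, hp.2.1⟩
      · rw [dvd_fR hpp two_ne_zero h0]
        exact fun h => hp.2.2.2 h.1
    · rintro ⟨hp, h2, h3⟩
      have hpp := (mem_PS.1 hp).2
      rw [dvd_fR1 hpp h0] at h2
      rw [dvd_fR hpp two_ne_zero h0] at h3
      obtain ⟨c, hc'⟩ := (dvd_F3 hpp).1 h2.1
      refine ⟨c, mem_univ _, ?_⟩
      rw [hA, mem_filter]
      exact ⟨hp, h2.2, hc', fun h => h3 ⟨h, h2.2⟩⟩

end Pool.Agent.L0h88.TT
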